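import Pool.Agent.H76.SD.Targets2
import Pool.Agent.H86.SD.BL0

/-! # BLC: one convex constraint -/

set_option autoImplicit false

namespace Pool.Agent.H24.SD

open Finset
open Pool.Agent.H1.LP (Loc PD)
open Pool.Agent.H76.SD (num ind)
open Pool.Agent.H76.CX
open Pool.Agent.H86.SD (bl_PD_abs num_le_sum)

theorem ind_mem {α : Type} (A : Finset α) (x : α) : 0 ≤ ind A x ∧ ind A x ≤ 1 := by
  unfold ind
  split_ifs <;> norm_num

theorem blc_est {X : Type} [Fintype X] (C : Finset X) (F q u : X → ℝ) (c sg e3 A mu : ℝ)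
    (hc : 0 ≤ c) (hA : 0 ≤ A) (hF : ∀ x, |F x| ≤ A) (hsg : sg = ∑ x ∈ C, q x)
    (hq : ∀ x ∈ C, |q x - c * u x| ≤ sg * mu) (hmu : 0 ≤ sg * mu)
    (hu : 0 ≤ ∑ x ∈ C, F x * u x)
    (hbd : A * (Fintype.card X * (sg * mu)) ≤ e3 * sg) :
    0 ≤ ∑ x ∈ C, (F x + e3) * q x := by
  have h1 : ∑ x ∈ C, (F x + e3) * q x =
      ∑ x ∈ C, F x * (q x - c * u x) + c * ∑ x ∈ C, F x * u x + e3 * sg := by
    rw [hsg, Finset.mul_sum, Finset.mul_sum, ← Finset.sum_add_distrib, ← Finset.sum_add_distrib]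
    exact Finset.sum_congr rfl fun x _ => by ring
  have h2 : |∑ x ∈ C, F x * (q x - c * u x)| ≤ A * (Fintype.card X * (sg * mu)) := by
    calc |∑ x ∈ C, F x * (q x - c * u x)| ≤ ∑ x ∈ C, |F x * (q x - c * u x)| :=
          Finset.abs_sum_le_sum_abs _ _
      _ ≤ ∑ x ∈ C, A * (sg * mu) := by
          refine Finset.sum_le_sum fun x hx => ?_
          rw [abs_mul]
          exact mul_le_mul (hF x) (hq x hx) (abs_nonneg _) hA
      _ = C.card * (A * (sg * mu)) := by rw [Finset.sum_const, nsmul_eq_mul]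
      _ ≤ Fintype.card X * (A * (sg * mu)) := by
          refine mul_le_mul_of_nonneg_right ?_ (mul_nonneg hA hmu)
          exact_mod_cast Finset.card_le_univ C
      _ = A * (Fintype.card X * (sg * mu)) := by ring
  have h3 := (abs_le.mp h2).1
  have h4 : 0 ≤ c * ∑ x ∈ C, F x * u x := mul_nonneg hc hu
  rw [h1]
  linarith

theorem blc_num {E g B t κ M0 : ℕ} (hg : (4 * E + 1) * B + t + 4 ≤ g) (hM : 0 < M0)
    (hM0 : 2 * κ * 2 ^ (g + 4 * g * E * B) ≤ M0) :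
    (2 * (2 : ℝ) ^ ((4 * E + 1) * B) + ((E : ℝ) + 1) ^ B * (1 / 2) ^ t) *
      (((2 : ℝ) ^ (4 * g * E * B)) * (2 * κ / M0)) ≤ ((E : ℝ) + 1) ^ B * (1 / 2) ^ t := by
  have hM' : (0 : ℝ) < M0 := by exact_mod_cast hM
  have h1 : (2 : ℝ) ^ (4 * g * E * B) * (2 * κ / M0) ≤ 1 / 2 ^ g := by
    rw [le_div_iff₀ (by positivity), mul_div_assoc', div_mul_eq_mul_div, div_le_one hM']
    have h2 : ((2 * κ * 2 ^ (g + 4 * g * E * B) : ℕ) : ℝ) ≤ M0 := by exact_mod_cast hM0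
    push_cast at h2
    rw [pow_add] at h2
    nlinarith [h2]
  have hE : (1 : ℝ) ≤ ((E : ℝ) + 1) ^ B := one_le_pow₀ (by
    have : (0 : ℝ) ≤ E := Nat.cast_nonneg E
    linarith)
  obtain ⟨e3, he3⟩ : ∃ e3 : ℝ, e3 = ((E : ℝ) + 1) ^ B * (1 / 2) ^ t := ⟨_, rfl⟩
  have he3t : (1 / 2 : ℝ) ^ t ≤ e3 := by
    rw [he3]
    exact le_mul_of_one_le_left (by positivity) hE
  have he30 : 0 < e3 := lt_of_lt_of_le (by positivity) he3t
  rw [← he3]
  obtain ⟨L, hL⟩ : ∃ L : ℝ, L = (2 : ℝ) ^ ((4 * E + 1) * B) := ⟨_, rfl⟩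
  have hL0 : 0 < L := by rw [hL]; positivity
  rw [← hL]
  have h5 : 4 * L ≤ e3 * 2 ^ g := by
    have h6 : 4 * L * 2 ^ t ≤ 2 ^ g := by
      rw [hL]
      calc 4 * (2 : ℝ) ^ ((4 * E + 1) * B) * 2 ^ t = 2 ^ (2 + (4 * E + 1) * B + t) := by
            rw [pow_add, pow_add]; norm_num
        _ ≤ 2 ^ g := pow_le_pow_right₀ (by norm_num) (by omega)
    have h7 : 4 * L ≤ (1 / 2 : ℝ) ^ t * 2 ^ g := by
      rw [one_div, inv_pow, ← div_eq_inv_mul, le_div_iff₀ (by positivity)]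
      exact h6
    exact h7.trans (mul_le_mul_of_nonneg_right he3t (by positivity))
  have hg1 : (2 : ℝ) ≤ 2 ^ g := by
    calc (2 : ℝ) = 2 ^ 1 := (pow_one _).symm
      _ ≤ 2 ^ g := pow_le_pow_right₀ (by norm_num) (by omega)
  calc (2 * L + e3) * ((2 : ℝ) ^ (4 * g * E * B) * (2 * κ / M0)) ≤ (2 * L + e3) * (1 / 2 ^ g) :=
        mul_le_mul_of_nonneg_left h1 (by positivity)
    _ ≤ e3 := by
        rw [mul_one_div, div_le_iff₀ (by positivity)]
        nlinarith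

theorem blc (hNTS : T_NTS) (hSCB : T_SCB) : T_BLC := by
  intro E g B t κ M0 p hp' Q _ _ S C v hE hB hp hQ hg hEB hM hM0
  obtain ⟨N, ps, w, hN, hw0, hw1, hps0, hps1, hpsw, hnet⟩ := hNTS (Fin B → Q) C κ M0 v hM
  obtain ⟨Li, hLi, hbad⟩ := hSCB E g B t κ p Q S w hE hB hp hQ hg hEB hw0 hw1
  refine ⟨Li, hLi, ?_⟩
  obtain ⟨u, hu⟩ : ∃ u : Fin N → (Fin B → Q) → ℝ,
      u = fun z x => if x ∈ C then ∑ a, ps z a * v x a else 0 := ⟨_, rfl⟩
  have huC : ∀ z, ∀ x ∈ C, u z x = ∑ a, ps z a * v x a := fun z x hx => by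
    rw [hu]; exact if_pos hx
  have huC' : ∀ z, ∀ x, x ∉ C → u z x = 0 := fun z x hx => by
    rw [hu]; exact if_neg hx
  have hu0 : ∀ z x, 0 ≤ u z x := fun z x => by
    by_cases hx : x ∈ C
    · rw [huC z x hx]; exact hps0 z x hx
    · rw [huC' z x hx]
  have huw : ∀ z x, u z x ≤ w x := fun z x => by
    by_cases hx : x ∈ C
    · rw [huC z x hx]; exact hpsw z x hx
    · rw [huC' z x hx]; exact hw0 x
  have hsumC : ∀ (z : Fin N) (F : (Fin B → Q) → ℝ), ∑ x, F x * u z x = ∑ x ∈ C, F x * u z x := by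
    intro z F
    symm
    refine Finset.sum_subset (Finset.subset_univ C) fun x _ hx => ?_
    rw [huC' z x hx, mul_zero]
  have hu1 : ∀ z, ∑ x, u z x = 1 := fun z => by
    have h1 := hsumC z fun _ => 1
    simp only [one_mul] at h1
    rw [h1, ← hps1 z]
    exact Finset.sum_congr rfl fun x hx => huC z x hx
  obtain ⟨β, hβ⟩ : ∃ β : ℝ, β = (1 / 2) ^ 2 ^ (2 * g) * Fintype.card (Fin B → Q → ZMod p) :=
    ⟨_, rfl⟩
  have hβ0 : 0 ≤ β := by rw [hβ]; positivity
  obtain ⟨e3, he3⟩ : ∃ e3 : ℝ, e3 = ((E : ℝ) + 1) ^ B * (1 / 2) ^ t := ⟨_, rfl⟩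
  obtain ⟨La, hLa⟩ : ∃ La : ℝ, La = (2 : ℝ) ^ ((4 * E + 1) * B) := ⟨_, rfl⟩
  have hkey := blc_num (E := E) (g := g) (B := B) (t := t) (κ := κ) (M0 := M0) hg hM hM0
  simp only [← he3, ← hLa] at hbad hkey ⊢
  have he30 : 0 ≤ e3 := by rw [he3]; positivity
  have hLa0 : 0 ≤ La := by rw [hLa]; positivity
  have hunion : num (fun al : Fin B → Q → ZMod p =>
        ¬ ∀ qs : Fin κ → ℝ, (∀ x ∈ C, 0 ≤ ∑ a, qs a * v x a) →
          0 ≤ ∑ x ∈ C, (PD S al x + 2 * e3 + La * ind Li x) * ∑ a, qs a * v x a) ≤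
      ∑ z : Fin N, num (fun al : Fin B → Q → ZMod p =>
        ¬ 0 ≤ ∑ x, (PD S al x + e3 + La * ind Li x) * u z x) := by
    apply num_le_sum
    intro al hal
    by_contra hcon
    apply hal
    have hgood : ∀ z : Fin N, 0 ≤ ∑ x, (PD S al x + e3 + La * ind Li x) * u z x := by
      intro z
      by_contra h
      exact hcon ⟨z, Finset.mem_univ z, h⟩
    intro qs hqs
    obtain ⟨q, hq⟩ : ∃ q : (Fin B → Q) → ℝ, q = fun x => ∑ a, qs a * v x a := ⟨_, rfl⟩
    have hq' : ∀ x, ∑ a, qs a * v x a = q x := fun x => by rw [hq]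
    simp only [hq'] at hqs ⊢
    have hnet' := hnet qs
    simp only [hq'] at hnet'
    rcases (Finset.sum_nonneg hqs).eq_or_lt with h0 | h0
    · have h1 := (Finset.sum_eq_zero_iff_of_nonneg hqs).1 h0.symm
      rw [Finset.sum_eq_zero]
      intro x hx
      rw [h1 x hx, mul_zero]
    · obtain ⟨z, c, hc, hz⟩ := hnet' hqs h0
      have hF : ∀ x, |PD S al x + e3 + La * ind Li x| ≤ 2 * La + e3 := by
        intro x
        have h1 : |PD S al x| ≤ La := by
          refine (bl_PD_abs S al x).trans ?_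
          rw [hLa, pow_mul]
          exact pow_le_pow_left₀ (Nat.cast_nonneg _) (by exact_mod_cast hp) B
        obtain ⟨h2, h3⟩ := ind_mem Li x
        have h4 := abs_le.mp h1
        rw [abs_le]
        constructor
        · nlinarith
        · nlinarith
      have hcard : (Fintype.card (Fin B → Q) : ℝ) = 2 ^ (4 * g * E * B) := by
        rw [Fintype.card_fun, Fintype.card_fin, hQ]
        push_cast
        rw [← pow_mul, ← pow_mul, mul_assoc (4 * g) E B]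
      have h5 := blc_est C (fun x => PD S al x + e3 + La * ind Li x) q (fun x => u z x) c
        (∑ x ∈ C, q x) e3 (2 * La + e3) (2 * κ / M0) hc (by positivity) hF rfl
        (fun x hx => by
          show |q x - c * u z x| ≤ _
          rw [huC z x hx]
          exact hz x hx) (mul_nonneg h0.le (by positivity))
        (by
          have := hgood z
          rw [hsumC z] at this
          exact this)
        (by
          rw [hcard]
          calc (2 * La + e3) * ((2 : ℝ) ^ (4 * g * E * B) * ((∑ x ∈ C, q x) * (2 * κ / M0))) =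
                ((2 * La + e3) * ((2 : ℝ) ^ (4 * g * E * B) * (2 * κ / M0))) * ∑ x ∈ C, q x := by
                ring
            _ ≤ e3 * ∑ x ∈ C, q x := mul_le_mul_of_nonneg_right hkey h0.le)
      refine h5.trans (le_of_eq ?_)
      exact Finset.sum_congr rfl fun x _ => by ring
  refine hunion.trans ?_
  have h6 : ∀ z ∈ (Finset.univ : Finset (Fin N)), num (fun al : Fin B → Q → ZMod p =>
        ¬ 0 ≤ ∑ x, (PD S al x + e3 + La * ind Li x) * u z x) ≤ β := fun z _ => by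
    rw [hβ]
    exact hbad (u z) (hu0 z) (huw z) (hu1 z)
  refine (Finset.sum_le_card_nsmul _ _ _ h6).trans ?_
  rw [Finset.card_univ, Fintype.card_fin, nsmul_eq_mul, mul_assoc ((M0 + 1 : ℝ) ^ κ), ← hβ]
  refine mul_le_mul_of_nonneg_right ?_ hβ0
  have : (N : ℝ) ≤ ((M0 + 1) ^ κ : ℕ) := by exact_mod_cast hN
  push_cast at this
  exact this

end Pool.Agent.H24.SD
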