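import Pool.Agent.H76.SD.Targets2

/-! # BRC: barycenter in a convex set -/

set_option autoImplicit false

namespace Pool.Agent.H24.SD

open Finset
open Pool.Agent.H76.CX

theorem brc (hsep : Pool.Agent.H60.CV.S_SEP) : T_BRC := by
  intro X _ C κ K G h hK hG hpos hh
  have hK' : convexHull ℝ (G '' (C : Set X)) ⊆ K :=
    convexHull_min (by rintro _ ⟨x, hx, rfl⟩; exact hG x hx) hK
  apply hK'
  refine hsep κ _ _ (convex_convexHull ℝ _)
    ((C.finite_toSet.image G).isClosed_convexHull ℝ) ?_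
  intro f f0 hz
  have h1 : ∀ x ∈ C, 0 ≤ ∑ a, f a * G x a + f0 := fun x hx =>
    hz (G x) (subset_convexHull ℝ _ ⟨x, hx, rfl⟩)
  have h2 := hh f f0 h1
  obtain ⟨s, hs⟩ : ∃ s, s = ∑ x ∈ C, h x := ⟨_, rfl⟩
  rw [← hs] at hpos ⊢
  have h3 : ∑ a, f a * ((∑ x ∈ C, h x * G x a) / s) + f0 =
      (∑ x ∈ C, h x * (∑ a, f a * G x a + f0)) / s := by
    rw [eq_div_iff hpos.ne', add_mul, Finset.sum_mul]
    have h4 : ∑ a, f a * ((∑ x ∈ C, h x * G x a) / s) * s =
        ∑ x ∈ C, h x * ∑ a, f a * G x a := by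
      have h5 : ∀ a ∈ (univ : Finset (Fin κ)), f a * ((∑ x ∈ C, h x * G x a) / s) * s =
          ∑ x ∈ C, h x * (f a * G x a) := by
        intro a _
        rw [mul_assoc, div_mul_cancel₀ _ hpos.ne', Finset.mul_sum]
        exact Finset.sum_congr rfl fun x _ => by ring
      rw [Finset.sum_congr rfl h5, Finset.sum_comm]
      exact Finset.sum_congr rfl fun x _ => by rw [Finset.mul_sum]
    rw [h4, hs, Finset.mul_sum, ← Finset.sum_add_distrib]
    exact Finset.sum_congr rfl fun x _ => by ring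
  rw [h3]
  exact div_nonneg h2 hpos.le

end Pool.Agent.H24.SD
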