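import Pool.Agent.H97.SD.Targets

/-!
[CE1] The number of `σ` without (E1), for the project SD on `MP_c62aed_lc`.
-/

set_option autoImplicit false

open Finset

namespace Pool.Agent.H24.SD

open Pool.Agent.H97.SD

/-- The number of `σ` for which all the places of the constraints in `J` lie in `X`. -/
theorem card_JX1 {N M k : ℕ} (p m : ℕ) (J : Finset (Fin M)) (X : Finset (Fin N))
    (hJ : J.card = p) (hX : X.card ≤ m) :
    (univ.filter (fun σ : Fin M → Fin k → Fin N => ∀ c ∈ J, ∀ i, σ c i ∈ X)).card ≤
      m ^ (k * p) * N ^ (k * (M - p)) := by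
  classical
  have hsub : univ.filter (fun σ : Fin M → Fin k → Fin N => ∀ c ∈ J, ∀ i, σ c i ∈ X) ⊆
      Fintype.piFinset (fun c => if c ∈ J then Fintype.piFinset (fun _ : Fin k => X)
        else univ) := by
    intro σ hσ
    rw [Finset.mem_filter] at hσ
    rw [Fintype.mem_piFinset]
    intro c
    by_cases hc : c ∈ J
    · rw [if_pos hc, Fintype.mem_piFinset]
      exact fun i => hσ.2 c hc i
    · rw [if_neg hc]
      exact Finset.mem_univ _
  refine (Finset.card_le_card hsub).trans ?_
  rw [Fintype.card_piFinset]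
  have h1 : ∀ c : Fin M, (if c ∈ J then Fintype.piFinset (fun _ : Fin k => X)
        else univ).card ≤ if c ∈ J then m ^ k else N ^ k := by
    intro c
    by_cases hc : c ∈ J
    · rw [if_pos hc, if_pos hc, Fintype.card_piFinset, Finset.prod_const, Finset.card_univ,
        Fintype.card_fin]
      exact Nat.pow_le_pow_left hX k
    · rw [if_neg hc, if_neg hc, Finset.card_univ, Fintype.card_fun, Fintype.card_fin,
        Fintype.card_fin]
  refine (Finset.prod_le_prod' (fun c _ => h1 c)).trans ?_
  rw [Finset.prod_ite, Finset.prod_const, Finset.prod_const]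
  have h2 : (univ.filter (fun i : Fin M => i ∈ J)) = J := by
    ext i; simp
  have h3 : (univ.filter (fun i : Fin M => i ∉ J)) = Jᶜ := by
    ext i; simp
  rw [h2, h3, hJ, Finset.card_compl, Fintype.card_fin, hJ, ← pow_mul, ← pow_mul]

open Classical in
theorem pf_CE1 : P_CE1 := by
  intro N M k p e hpM
  have hsub : univ.filter (fun σ : Fin M → Fin k → Fin N => ¬ E1 σ p e) ⊆
      (Finset.powersetCard p (univ : Finset (Fin M))).biUnion
        (fun J => ((univ : Finset (Finset (Fin N))).filter (fun X => X.card ≤ N - e - 1)).biUnion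
          (fun X => univ.filter (fun σ : Fin M → Fin k → Fin N =>
            ∀ c ∈ J, ∀ i, σ c i ∈ X))) := by
    intro σ hσ
    rw [Finset.mem_filter] at hσ
    have h1 := hσ.2
    unfold E1 at h1
    push Not at h1
    obtain ⟨J, hJp, hJ⟩ := h1
    rw [Finset.mem_biUnion]
    refine ⟨J, Finset.mem_powersetCard.2 ⟨Finset.subset_univ _, hJp⟩, ?_⟩
    rw [Finset.mem_biUnion]
    refine ⟨VJ σ J, Finset.mem_filter.2 ⟨Finset.mem_univ _, by omega⟩, ?_⟩
    rw [Finset.mem_filter]
    refine ⟨Finset.mem_univ _, fun c hc i => ?_⟩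
    unfold VJ
    exact Finset.mem_biUnion.2 ⟨c, hc, Finset.mem_image.2 ⟨i, Finset.mem_univ _, rfl⟩⟩
  refine (Finset.card_le_card hsub).trans (Finset.card_biUnion_le.trans ?_)
  have h1 : ∀ J ∈ Finset.powersetCard p (univ : Finset (Fin M)),
      (((univ : Finset (Finset (Fin N))).filter (fun X => X.card ≤ N - e - 1)).biUnion
          (fun X => univ.filter (fun σ : Fin M → Fin k → Fin N =>
            ∀ c ∈ J, ∀ i, σ c i ∈ X))).card ≤
        2 ^ N * ((N - e - 1) ^ (k * p) * N ^ (k * (M - p))) := by
    intro J hJ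
    refine Finset.card_biUnion_le.trans ?_
    refine (Finset.sum_le_sum (fun X hX => card_JX1 p (N - e - 1) J X
      (Finset.mem_powersetCard.1 hJ).2 (Finset.mem_filter.1 hX).2)).trans ?_
    rw [Finset.sum_const, smul_eq_mul]
    apply Nat.mul_le_mul_right
    refine (Finset.card_filter_le _ _).trans ?_
    rw [Finset.card_univ, Fintype.card_finset, Fintype.card_fin]
  refine (Finset.sum_le_sum h1).trans ?_
  rw [Finset.sum_const, Finset.card_powersetCard, Finset.card_univ, Fintype.card_fin,
    smul_eq_mul]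
  apply le_of_eq
  ring

end Pool.Agent.H24.SD
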