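import Pool.Agent.H97.SD.Targets

/-!
[CE2] The number of `σ` without (E2), for the project SD on `MP_c62aed_lc`.
-/

set_option autoImplicit false

open Finset

namespace Pool.Agent.H24.SD

open Pool.Agent.H97.SD

/-- The functions with at least `r` values in `X`. -/
theorem card_many {N k : ℕ} (r : ℕ) (X : Finset (Fin N)) (hr : r ≤ k) :
    (univ.filter (fun f : Fin k → Fin N => r ≤ (univ.filter (fun i => f i ∈ X)).card)).card ≤
      2 ^ k * X.card ^ r * N ^ (k - r) := by
  classical
  have hsub : univ.filter (fun f : Fin k → Fin N => r ≤ (univ.filter (fun i => f i ∈ X)).card) ⊆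
      (Finset.powersetCard r (univ : Finset (Fin k))).biUnion
        (fun T => Fintype.piFinset (fun i => if i ∈ T then X else univ)) := by
    intro f hf
    rw [Finset.mem_filter] at hf
    obtain ⟨T, hT1, hT2⟩ := Finset.exists_subset_card_eq hf.2
    rw [Finset.mem_biUnion]
    refine ⟨T, Finset.mem_powersetCard.2 ⟨Finset.subset_univ _, hT2⟩, ?_⟩
    rw [Fintype.mem_piFinset]
    intro i
    by_cases hi : i ∈ T
    · rw [if_pos hi]
      exact (Finset.mem_filter.1 (hT1 hi)).2
    · rw [if_neg hi]
      exact Finset.mem_univ _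
  have hcard : ∀ T ∈ Finset.powersetCard r (univ : Finset (Fin k)),
      (Fintype.piFinset (fun i => if i ∈ T then X else univ)).card ≤
        X.card ^ r * N ^ (k - r) := by
    intro T hT
    rw [Finset.mem_powersetCard] at hT
    rw [Fintype.card_piFinset]
    have h1 : ∀ i : Fin k, (if i ∈ T then X else (univ : Finset (Fin N))).card =
        if i ∈ T then X.card else N := by
      intro i
      by_cases hi : i ∈ T
      · rw [if_pos hi, if_pos hi]
      · rw [if_neg hi, if_neg hi, Finset.card_univ, Fintype.card_fin]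
    rw [Finset.prod_congr rfl (fun i _ => h1 i), Finset.prod_ite, Finset.prod_const,
      Finset.prod_const]
    have h2 : (univ.filter (fun i : Fin k => i ∈ T)) = T := by
      ext i; simp
    have h3 : (univ.filter (fun i : Fin k => i ∉ T)) = Tᶜ := by
      ext i; simp
    rw [h2, h3, hT.2, Finset.card_compl, Fintype.card_fin, hT.2]
  calc _ ≤ _ := Finset.card_le_card hsub
    _ ≤ ∑ T ∈ Finset.powersetCard r (univ : Finset (Fin k)), _ := Finset.card_biUnion_le
    _ ≤ ∑ T ∈ Finset.powersetCard r (univ : Finset (Fin k)), X.card ^ r * N ^ (k - r) :=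
        Finset.sum_le_sum hcard
    _ = k.choose r * (X.card ^ r * N ^ (k - r)) := by
        rw [Finset.sum_const, Finset.card_powersetCard, Finset.card_univ, Fintype.card_fin,
          smul_eq_mul]
    _ ≤ 2 ^ k * (X.card ^ r * N ^ (k - r)) :=
        Nat.mul_le_mul_right _ (Nat.choose_le_two_pow k r)
    _ = _ := by ring

/-- The number of `σ` for which all the constraints in `J` have many places in `X`. -/
theorem card_JX {N M k : ℕ} (r s : ℕ) (J : Finset (Fin M)) (X : Finset (Fin N)) (hr : r ≤ k)
    (hJ : J.card = s) (hX : X.card = s) :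
    (univ.filter (fun σ : Fin M → Fin k → Fin N => ∀ c ∈ J, r ≤ wt σ c X)).card ≤
      (2 ^ k * s ^ r * N ^ (k - r)) ^ s * N ^ (k * (M - s)) := by
  classical
  have hsub : univ.filter (fun σ : Fin M → Fin k → Fin N => ∀ c ∈ J, r ≤ wt σ c X) ⊆
      Fintype.piFinset (fun c => if c ∈ J then univ.filter (fun f : Fin k → Fin N =>
        r ≤ (univ.filter (fun i => f i ∈ X)).card) else univ) := by
    intro σ hσ
    rw [Finset.mem_filter] at hσ
    rw [Fintype.mem_piFinset]
    intro c
    by_cases hc : c ∈ J
    · rw [if_pos hc, Finset.mem_filter]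
      exact ⟨Finset.mem_univ _, hσ.2 c hc⟩
    · rw [if_neg hc]
      exact Finset.mem_univ _
  refine (Finset.card_le_card hsub).trans ?_
  rw [Fintype.card_piFinset]
  have h1 : ∀ c : Fin M, (if c ∈ J then univ.filter (fun f : Fin k → Fin N =>
        r ≤ (univ.filter (fun i => f i ∈ X)).card) else univ).card ≤
      if c ∈ J then 2 ^ k * s ^ r * N ^ (k - r) else N ^ k := by
    intro c
    by_cases hc : c ∈ J
    · rw [if_pos hc, if_pos hc]
      have := card_many r X hr
      rwa [hX] at this
    · rw [if_neg hc, if_neg hc, Finset.card_univ, Fintype.card_fun, Fintype.card_fin,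
        Fintype.card_fin]
  refine (Finset.prod_le_prod' (fun c _ => h1 c)).trans ?_
  rw [Finset.prod_ite, Finset.prod_const, Finset.prod_const]
  have h2 : (univ.filter (fun i : Fin M => i ∈ J)) = J := by
    ext i; simp
  have h3 : (univ.filter (fun i : Fin M => i ∉ J)) = Jᶜ := by
    ext i; simp
  rw [h2, h3, hJ, Finset.card_compl, Fintype.card_fin, hJ, ← pow_mul]

open Classical in
theorem pf_CE2 : P_CE2 := by
  intro N M k p r hpM hpN hr
  have hsub : univ.filter (fun σ : Fin M → Fin k → Fin N => ¬ E2 σ p r) ⊆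
      (Finset.Icc 1 p).biUnion (fun s => (Finset.powersetCard s (univ : Finset (Fin M))).biUnion
        (fun J => (Finset.powersetCard s (univ : Finset (Fin N))).biUnion
          (fun X => univ.filter (fun σ : Fin M → Fin k → Fin N => ∀ c ∈ J, r ≤ wt σ c X)))) := by
    intro σ hσ
    rw [Finset.mem_filter] at hσ
    have h1 := hσ.2
    unfold E2 at h1
    push Not at h1
    obtain ⟨J, hJp, X, hXJ, hJX⟩ := h1
    obtain ⟨X', hX1, hX2⟩ := Finset.exists_superset_card_eq (s := X) (n := J.card) hXJ.le
      (by rw [Fintype.card_fin]; omega)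
    rw [Finset.mem_biUnion]
    refine ⟨J.card, Finset.mem_Icc.2 ⟨by omega, hJp⟩, ?_⟩
    rw [Finset.mem_biUnion]
    refine ⟨J, Finset.mem_powersetCard.2 ⟨Finset.subset_univ _, rfl⟩, ?_⟩
    rw [Finset.mem_biUnion]
    refine ⟨X', Finset.mem_powersetCard.2 ⟨Finset.subset_univ _, hX2⟩, ?_⟩
    rw [Finset.mem_filter]
    refine ⟨Finset.mem_univ _, fun c hc => (hJX c hc).trans ?_⟩
    unfold wt
    apply Finset.card_le_card
    intro i hi
    rw [Finset.mem_filter] at hi ⊢
    exact ⟨hi.1, hX1 hi.2⟩
  refine (Finset.card_le_card hsub).trans (Finset.card_biUnion_le.trans ?_)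
  apply Finset.sum_le_sum
  intro s hs
  refine Finset.card_biUnion_le.trans ?_
  have h1 : ∀ J ∈ Finset.powersetCard s (univ : Finset (Fin M)),
      ((Finset.powersetCard s (univ : Finset (Fin N))).biUnion
          (fun X => univ.filter (fun σ : Fin M → Fin k → Fin N => ∀ c ∈ J, r ≤ wt σ c X))).card ≤
        N.choose s * ((2 ^ k * s ^ r * N ^ (k - r)) ^ s * N ^ (k * (M - s))) := by
    intro J hJ
    refine Finset.card_biUnion_le.trans ?_
    refine (Finset.sum_le_sum (fun X hX => card_JX r s J X hr (Finset.mem_powersetCard.1 hJ).2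
      (Finset.mem_powersetCard.1 hX).2)).trans ?_
    rw [Finset.sum_const, Finset.card_powersetCard, Finset.card_univ, Fintype.card_fin,
      smul_eq_mul]
  refine (Finset.sum_le_sum h1).trans ?_
  rw [Finset.sum_const, Finset.card_powersetCard, Finset.card_univ, Fintype.card_fin,
    smul_eq_mul]
  apply le_of_eq
  ring

end Pool.Agent.H24.SD
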