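import Pool.Agent.H97.SD.Targets

/-!
[ONE] `Y` at a flipped assignment and falsified axioms, for the project SD on `MP_c62aed_lc`.
-/

set_option autoImplicit false

open Finset

namespace Pool.Agent.H24.SD

open Pool.Agent.H97.SD

theorem par_flip {N a b : ℕ} {α x : BV N a b → Bool} {j : Fin N} {g : Fin a} {i : Fin b}
    (hα : Even (par α j g)) (h1 : x (j, g, i) ≠ α (j, g, i))
    (h2 : ∀ i', i' ≠ i → x (j, g, i') = α (j, g, i')) : Odd (par x j g) := by
  classical
  unfold par at hα ⊢
  cases ha : α (j, g, i) with
  | true =>
    have hx : x (j, g, i) = false := by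
      cases hx : x (j, g, i) with
      | true => exact absurd (hx.trans ha.symm) h1
      | false => rfl
    have he : univ.filter (fun i : Fin b => α (j, g, i) = true) =
        insert i (univ.filter (fun i : Fin b => x (j, g, i) = true)) := by
      ext i'
      rw [Finset.mem_insert, Finset.mem_filter, Finset.mem_filter]
      by_cases hi : i' = i
      · subst hi
        simp [ha]
      · simp [hi, h2 i' hi]
    have hn : i ∉ univ.filter (fun i : Fin b => x (j, g, i) = true) := by
      rw [Finset.mem_filter]
      simp [hx]
    rw [he, Finset.card_insert_of_notMem hn] at hα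
    rcases Nat.even_or_odd (univ.filter (fun i : Fin b => x (j, g, i) = true)).card with h | h
    · exfalso
      obtain ⟨u, hu⟩ := hα
      obtain ⟨v, hv⟩ := h
      omega
    · exact h
  | false =>
    have hx : x (j, g, i) = true := by
      cases hx : x (j, g, i) with
      | true => rfl
      | false => exact absurd (hx.trans ha.symm) h1
    have he : univ.filter (fun i : Fin b => x (j, g, i) = true) =
        insert i (univ.filter (fun i : Fin b => α (j, g, i) = true)) := by
      ext i'
      rw [Finset.mem_insert, Finset.mem_filter, Finset.mem_filter]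
      by_cases hi : i' = i
      · subst hi
        simp [hx]
      · simp [hi, h2 i' hi]
    have hn : i ∉ univ.filter (fun i : Fin b => α (j, g, i) = true) := by
      rw [Finset.mem_filter]
      simp [ha]
    rw [he, Finset.card_insert_of_notMem hn]
    exact hα.add_one

theorem pf_ONE : P_ONE := by
  intro N M k a b σ h
  constructor
  · intro α x O hα hO
    ext j
    unfold Y
    rw [Finset.mem_filter]
    constructor
    · rintro ⟨_, g, hg⟩
      by_contra hj
      have h1 : par x j g = par α j g := by
        unfold par
        congr 1
        apply Finset.filter_congr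
        intro i _
        rw [hO.1 (j, g, i) hj]
      rw [h1] at hg
      exact (Nat.not_odd_iff_even.2 (hα j g)) hg
    · intro hj
      refine ⟨Finset.mem_univ _, ?_⟩
      obtain ⟨⟨g, i⟩, h1, h2⟩ := hO.2 j hj
      exact ⟨g, par_flip (hα j g) h1 (fun i' hi' => h2 (g, i') (by
        intro hh
        exact hi' (Prod.mk.inj hh).2))⟩
  · intro C x hC hA
    obtain ⟨A, hA, hAC⟩ := hA
    unfold FF at hA
    rw [Finset.mem_image] at hA
    obtain ⟨⟨c, z⟩, hcz, rfl⟩ := hA
    rw [Finset.mem_filter] at hcz
    have hcz2 : wt σ c (Y z) = h c := hcz.2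
    have hmem : ∀ v : BV N a b, (∃ i, σ c i = v.1) → (v, !(z v)) ∈ C := by
      intro v hv
      apply hAC
      show (v, !(z v)) ∈ ax σ c z
      unfold ax
      rw [Finset.mem_image]
      exact ⟨v, Finset.mem_filter.2 ⟨Finset.mem_univ _, hv⟩, rfl⟩
    have hxz : ∀ v : BV N a b, (∃ i, σ c i = v.1) → x v = z v := by
      intro v hv
      have h1 := hC _ (hmem v hv)
      simp only at h1
      cases hx : x v <;> cases hz : z v <;> simp_all
    refine ⟨c, ?_, ?_⟩
    · rw [← hcz2]
      unfold wt
      congr 1
      apply Finset.filter_congr
      intro i _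
      unfold Y
      rw [Finset.mem_filter, Finset.mem_filter]
      have h2 : ∀ g, par x (σ c i) g = par z (σ c i) g := by
        intro g
        unfold par
        congr 1
        apply Finset.filter_congr
        intro i' _
        rw [hxz (σ c i, g, i') ⟨i, rfl⟩]
      simp only [h2]
    · intro i
      unfold Hp
      rw [Finset.mem_filter]
      refine ⟨Finset.mem_univ _, ?_⟩
      have h3 : (univ.filter (fun u : Fin a × Fin b => (σ c i, u) ∉ C.image Prod.fst)) = ∅ := by
        rw [Finset.filter_eq_empty_iff]
        intro u _
        rw [not_not, Finset.mem_image]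
        exact ⟨((σ c i, u), !(z (σ c i, u))), hmem (σ c i, u) ⟨i, rfl⟩, rfl⟩
      rw [h3, Finset.card_empty]
      exact Nat.zero_le _

end Pool.Agent.H24.SD
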