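import Pool.Agent.H97.SD.Targets

/-!
[PHA] A phase of the game, for the project SD on `MP_c62aed_lc`.
-/

set_option autoImplicit false

open Finset

namespace Pool.Agent.H24.SD

open Pool.Agent.H97.SD

theorem pth_congr {V : Type} (nx : Clause V → Bool → Clause V) (C : Clause V) (β β' : ℕ → Bool) :
    ∀ s : ℕ, (∀ j, j < s → β j = β' j) → pth nx C β s = pth nx C β' s := by
  intro s
  induction s with
  | zero => intro _; rfl
  | succ s ih =>
    intro h
    show nx (pth nx C β s) (β s) = nx (pth nx C β' s) (β' s)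
    rw [ih (fun j hj => h j (by omega)), h s (by omega)]

theorem ub_succ {N a b : ℕ} (nx : Clause (BV N a b) → Bool → Clause (BV N a b))
    (C : Clause (BV N a b)) (β : ℕ → Bool) (i : ℕ) :
    UB nx C β (i + 1) = UB nx C β i ∪ Hp (pth nx C β (i + 1)) := by
  unfold UB
  rw [Finset.range_add_one (n := i + 1), Finset.biUnion_insert, Finset.union_comm]

theorem ub_congr {N a b : ℕ} (nx : Clause (BV N a b) → Bool → Clause (BV N a b))
    (C : Clause (BV N a b)) (β β' : ℕ → Bool) (i : ℕ) (h : ∀ j, j < i → β j = β' j) :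
    UB nx C β i = UB nx C β' i := by
  unfold UB
  apply Finset.biUnion_congr rfl
  intro s hs
  rw [Finset.mem_range] at hs
  rw [pth_congr nx C β β' s (fun j hj => h j (by omega))]

theorem comp_of {N a b : ℕ} {α x : BV N a b → Bool} {O : Finset (Fin N)}
    {D : Clause (BV N a b)} (h1 : OneFlip α x O) (h2 : Falsified D x) :
    ∀ l ∈ D, l.1.1 ∉ O → α l.1 ≠ l.2 := by
  intro l hl hO
  rw [← h1.1 l.1 hO]
  exact h2 l hl

theorem pf_PHA (hCLO : P_CLO) (hSTP : P_STP) : P_PHA := by
  intro N M k a b σ h r p L P ρ q nx α x O C hr hE2 hS hα hCP hInv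
  have key : ∀ i : ℕ, i ≤ L →
      (∃ (β : ℕ → Bool) (i : ℕ) (O' : Finset (Fin N)), i ≤ L ∧ O'.card ≤ O.card + p ∧
        Comp α nx C β i O' ∧ p ≤ (cl σ r (UB nx C β i ∪ O')).card) ∨
      ∃ (β : ℕ → Bool) (y : BV N a b → Bool) (O' : Finset (Fin N)), pth nx C β i ∈ P ∧
        ρ (pth nx C β i) + i ≤ ρ C ∧
        O'.card + (cl σ r (Hp C ∪ O)).card ≤ O.card + (cl σ r (UB nx C β i ∪ O')).card ∧
        Inv σ h r p α y O' (UB nx C β i) (pth nx C β i) ∧ Comp α nx C β i O' := by
    intro i
    induction i with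
    | zero =>
      intro _
      right
      have h0 : UB nx C (fun _ => false) 0 = Hp C := by
        unfold UB
        simp [pth]
      refine ⟨fun _ => false, x, O, hCP, le_rfl, ?_, ?_, ?_⟩
      · rw [h0]
      · rw [h0]; exact hInv
      · intro s hs l hl hO
        obtain rfl : s = 0 := by omega
        exact comp_of hInv.2.1 hInv.1 l hl hO
    | succ i ih =>
      intro hi
      rcases ih (by omega) with h1 | ⟨β, y, O', hP, hρ, hc, hI, hC⟩
      · exact Or.inl h1
      obtain ⟨s1, s2, s3, s4⟩ := hSTP N M k a b σ h r p P ρ q nx α y O' (UB nx C β i)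
        (pth nx C β i) hr hE2 hS hα hP hI
      set β' : ℕ → Bool := Function.update β i (y (q (pth nx C β i))) with hβ'
      have hb : ∀ j, j < i → β j = β' j := by
        intro j hj
        rw [hβ', Function.update_of_ne (by omega)]
      have hp1 : pth nx C β' (i + 1) = nx (pth nx C β i) (y (q (pth nx C β i))) := by
        show nx (pth nx C β' i) (β' i) = _
        rw [← pth_congr nx C β β' i hb, hβ', Function.update_self]
      have hub : UB nx C β' (i + 1) = UB nx C β i ∪
          Hp (nx (pth nx C β i) (y (q (pth nx C β i)))) := by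
        rw [ub_succ, hp1, ← ub_congr nx C β β' i hb]
      rw [← hp1] at s1 s2 s3
      have hcomp : ∀ (O'' : Finset (Fin N)) (y' : BV N a b → Bool), O' ⊆ O'' →
          OneFlip α y' O'' → Falsified (pth nx C β' (i + 1)) y' → Comp α nx C β' (i + 1) O'' := by
        intro O'' y' hOO hf hfa s hs l hl hO
        by_cases hsi : s = i + 1
        · subst hsi
          exact comp_of hf hfa l hl hO
        · rw [← pth_congr nx C β β' s (fun j hj => hb j (by omega))] at hl
          exact hC s (by omega) l hl (fun hh => hO (hOO hh))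
      rcases s4 with s4 | ⟨y', O'', hO, hcard, hI'⟩
      · left
        refine ⟨β', i + 1, O', hi, ?_, hcomp O' y (Finset.Subset.refl _) hI.2.1 s3, ?_⟩
        · have := hI.2.2.2.1
          omega
        · rw [hub]; exact s4
      · right
        refine ⟨β', y', O'', s1, by omega, ?_, ?_, ?_⟩
        · rw [hub]; omega
        · rw [hub, hp1]; exact hI'
        · refine hcomp O'' y' hO hI'.2.1 ?_
          rw [hp1]
          exact hI'.1
  rcases key L le_rfl with h1 | ⟨β, y, O', hP, hρ, hc, hI, hC⟩
  · exact Or.inl h1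
  right
  refine ⟨pth nx C β L, y, O', hP, hρ, ?_, hI.1, hI.2.1, Finset.Subset.refl _, ?_, ?_⟩
  · have := hI.2.2.2.1
    omega
  · have h1 : cl σ r (Hp (pth nx C β L) ∪ O') ⊆ cl σ r (UB nx C β L ∪ O') :=
      (hCLO N M k σ r).2.1 _ _ (Finset.union_subset_union_left hI.2.2.1)
    exact (Finset.card_le_card h1).trans_lt hI.2.2.2.1
  · intro c hc1
    have h1 : cl σ r (Hp (pth nx C β L) ∪ O') ⊆ cl σ r (UB nx C β L ∪ O') :=
      (hCLO N M k σ r).2.1 _ _ (Finset.union_subset_union_left hI.2.2.1)
    exact hI.2.2.2.2 c (h1 hc1)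

end Pool.Agent.H24.SD
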