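import Pool.Agent.H97.SD.Targets

/-!
[STP] One step of the game, for the project SD on `MP_c62aed_lc`.
-/

set_option autoImplicit false

open Finset

namespace Pool.Agent.H24.SD

open Pool.Agent.H97.SD

theorem pf_STP (hCLO : P_CLO) (hHAL : P_HAL) (hFIX : P_FIX) (hONE : P_ONE) (hFLP : P_FLP) :
    P_STP := by
  intro N M k a b σ h r p P ρ q nx α x O B C hr hE2 hS hα hCP hInv
  obtain ⟨hFx, hOF, hHp, hcard, hsat⟩ := hInv
  have hY : Y x = O := (hONE N M k a b σ h).1 α x O hα hOF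
  have hclosed := (hCLO N M k σ r).1
  have hmono := (hCLO N M k σ r).2.1
  have habs := (hCLO N M k σ r).2.2.1
  have hnoax : ¬ ∃ A ∈ FF a b σ h, A ⊆ C := by
    intro hA
    obtain ⟨c, hc1, hc2⟩ := (hONE N M k a b σ h).2 C x hFx hA
    have hcin : c ∈ cl σ r (B ∪ O) := by
      by_contra hcn
      have h1 := hclosed (B ∪ O) c hcn
      have h2 : out σ c (B ∪ O ∪ VJ σ (cl σ r (B ∪ O))) = 0 := by
        unfold out
        rw [Finset.card_eq_zero, Finset.filter_eq_empty_iff]
        intro i _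
        simp only [not_not]
        exact Finset.mem_union_left _ (Finset.mem_union_left _ (hHp (hc2 i)))
      omega
    exact hsat c hcin (by rw [← hc1, hY])
  rcases hS C hCP with hA | hst
  · exact absurd hA hnoax
  obtain ⟨hP', hρ', hsub⟩ := hst (x (q C))
  have hN : 1 ≤ N := by
    have h1 := (q C).1.isLt
    omega
  generalize nx C (x (q C)) = C' at hP' hρ' hsub
  have hFx' : Falsified C' x := by
    intro l hl
    rcases Finset.mem_insert.1 (hsub hl) with h1 | h1
    · rw [h1]; simp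
    · exact hFx l h1
  refine ⟨hP', hρ', hFx', ?_⟩
  by_cases hstop : p ≤ (cl σ r (B ∪ Hp C' ∪ O)).card
  · exact Or.inl hstop
  right
  push Not at hstop
  have hBB : B ∪ O ⊆ B ∪ Hp C' ∪ O :=
    Finset.union_subset_union_left Finset.subset_union_left
  have hclm : cl σ r (B ∪ O) ⊆ cl σ r (B ∪ Hp C' ∪ O) := hmono _ _ hBB
  have hScard : (cl σ r (B ∪ Hp C' ∪ O) \ cl σ r (B ∪ O)).card + (cl σ r (B ∪ O)).card =
      (cl σ r (B ∪ Hp C' ∪ O)).card := Finset.card_sdiff_add_card_eq_card hclm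
  obtain ⟨z, hzinj, hz⟩ := hHAL N M k σ p r hN hE2
    (cl σ r (B ∪ Hp C' ∪ O) \ cl σ r (B ∪ O)) (B ∪ O ∪ VJ σ (cl σ r (B ∪ O))) (by omega)
    (fun c hc => hclosed (B ∪ O) c (Finset.mem_sdiff.1 hc).2)
  obtain ⟨T, hTS, hT⟩ := hFIX N M k σ h O (cl σ r (B ∪ Hp C' ∪ O) \ cl σ r (B ∪ O)) z hzinj
    (fun c hc => ⟨(hz c hc).1, fun hO => (hz c hc).2
      (Finset.mem_union_left _ (Finset.mem_union_right _ hO))⟩)
  have hdO : Disjoint (T.image z) O := by
    rw [Finset.disjoint_left]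
    intro j hj hO
    obtain ⟨c, hc, rfl⟩ := Finset.mem_image.1 hj
    exact (hz c (hTS hc)).2 (Finset.mem_union_left _ (Finset.mem_union_right _ hO))
  have hdH : Disjoint (T.image z) (Hp C) := by
    rw [Finset.disjoint_left]
    intro j hj hO
    obtain ⟨c, hc, rfl⟩ := Finset.mem_image.1 hj
    exact (hz c (hTS hc)).2 (Finset.mem_union_left _ (Finset.mem_union_left _ (hHp hO)))
  have hdV : ∀ j ∈ T.image z, j ∉ VJ σ (cl σ r (B ∪ O)) := by
    intro j hj hO
    obtain ⟨c, hc, rfl⟩ := Finset.mem_image.1 hj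
    exact (hz c (hTS hc)).2 (Finset.mem_union_right _ hO)
  obtain ⟨x', hx1, hx2⟩ := hFLP N a b C C' (q C, !(x (q C))) α x O (T.image z) hsub hFx' hOF
    hdO hdH
  have hZsub : T.image z ⊆ VJ σ (cl σ r (B ∪ Hp C' ∪ O)) := by
    intro j hj
    obtain ⟨c, hc, rfl⟩ := Finset.mem_image.1 hj
    unfold VJ
    rw [Finset.mem_biUnion]
    obtain ⟨i, hi⟩ := (hz c (hTS hc)).1
    exact ⟨c, (Finset.mem_sdiff.1 (hTS hc)).1, Finset.mem_image.2 ⟨i, Finset.mem_univ _, hi⟩⟩
  have hcl : cl σ r (B ∪ Hp C' ∪ (O ∪ T.image z)) = cl σ r (B ∪ Hp C' ∪ O) := by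
    rw [← Finset.union_assoc]
    exact habs _ _ hZsub
  refine ⟨x', O ∪ T.image z, Finset.subset_union_left, ?_, hx2, hx1, Finset.subset_union_right,
    ?_, ?_⟩
  · rw [hcl]
    have h1 := Finset.card_union_le O (T.image z)
    have h2 : (T.image z).card ≤ T.card := Finset.card_image_le
    have h3 := Finset.card_le_card hTS
    omega
  · rw [hcl]; exact hstop
  · rw [hcl]
    intro c hc
    by_cases hc1 : c ∈ cl σ r (B ∪ O)
    · have h1 : wt σ c (O ∪ T.image z) = wt σ c O := by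
        unfold wt
        congr 1
        apply Finset.filter_congr
        intro i _
        rw [Finset.mem_union]
        constructor
        · rintro (h1 | h1)
          · exact h1
          · exact absurd (Finset.mem_biUnion.2 ⟨c, hc1, Finset.mem_image.2
              ⟨i, Finset.mem_univ _, rfl⟩⟩) (hdV _ h1)
        · exact fun h1 => Or.inl h1
      rw [h1]
      exact hsat c hc1
    · exact hT c (Finset.mem_sdiff.2 ⟨hc, hc1⟩)

end Pool.Agent.H24.SD
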